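import Pool.Agent.K3h52.LF.Net
import Pool.Agent.K3h76.UC.Mid

set_option autoImplicit false
set_option linter.unusedSectionVars false

/-!
The probability that a point of the net is covered by a random translate.
-/

namespace Pool.Agent.K3h52.LF

open scoped RealInnerProductSpace Pointwise
open Module MeasureTheory
open Pool.Agent.H845R2 (SB pol pol_anti pol_closed pol_convex)
open Pool.Agent.K3h52.HR

variable {V : Type*} [NormedAddCommGroup V] [InnerProductSpace ℝ V] [FiniteDimensional ℝ V]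

/-- The set from which the translates are chosen. -/
def Qs (K L : Set V) (κ : ℝ) (l₀ : V) : Set V := {t | (-κ) • l₀ + t ∈ ((1 + κ) / 2) • (K - L)}

/-- The translates that cover `p`. -/
def Ts (K L : Set V) (κ : ℝ) (l₀ p : V) : Set V := {t | t ∈ Qs K L κ l₀ ∧ p - t ∈ (1 - κ) • K}

theorem sub_comp {K L : Set V} (hK : IsCompact K) (hL : IsCompact L) : IsCompact (K - L) := by
  rw [sub_eq_add_neg]
  exact hK.add hL.neg

theorem qs_closed {K L : Set V} (hK : IsCompact K) (hL : IsCompact L) (κ : ℝ) (l₀ : V) :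
    IsClosed (Qs K L κ l₀) :=
  ((sub_comp hK hL).smul _).isClosed.preimage (by fun_prop)

theorem ts_closed {K L : Set V} (hK : IsCompact K) (hL : IsCompact L) (κ : ℝ) (l₀ p : V) :
    IsClosed (Ts K L κ l₀ p) := by
  have e : Ts K L κ l₀ p = Qs K L κ l₀ ∩ (fun t => p - t) ⁻¹' ((1 - κ) • K) := rfl
  rw [e]
  exact (qs_closed hK hL κ l₀).inter ((hK.smul _).isClosed.preimage (by fun_prop))

theorem ts_sub {K L : Set V} (κ : ℝ) (l₀ p : V) : Ts K L κ l₀ p ⊆ Qs K L κ l₀ :=
  fun _ ht => ht.1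

theorem ts_mem {K L : Set V} (hK : Convex ℝ K) (hL : Convex ℝ L) (hLK : L ⊆ K) {κ : ℝ}
    (hκ0 : 0 < κ) (hκ1 : κ < 1) {l₀ p m w : V} (hl : l₀ ∈ L)
    (hp : p ∈ K) (hm : m ∈ Mac K p) (hw : -w ∈ L) :
    ((1 - κ) / 2) • m + ((1 + κ) / 2) • p + ((1 - κ) / 2) • w ∈ Ts K L κ l₀ p := by
  have hκ2 : 0 < 1 + κ := by linarith
  constructor
  · have hx : (2 * κ / (1 + κ)) • p + ((1 - κ) / (1 + κ)) • (p + m) ∈ K :=
      hK hp hm.1 (by positivity) (div_nonneg (by linarith) hκ2.le) (by field_simp; ring)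
    have hy : ((1 - κ) / (1 + κ)) • (-w) + (2 * κ / (1 + κ)) • l₀ ∈ L :=
      hL hw hl (div_nonneg (by linarith) hκ2.le) (by positivity) (by field_simp; ring)
    refine ⟨_, Set.sub_mem_sub hx hy, ?_⟩
    simp only [smul_sub, smul_add, smul_neg, smul_smul]
    have e1 : (1 + κ) / 2 * (2 * κ / (1 + κ)) = κ := by field_simp
    have e2 : (1 + κ) / 2 * ((1 - κ) / (1 + κ)) = (1 - κ) / 2 := by field_simp
    rw [e1, e2]
    module
  · have hx : (1 / 2 : ℝ) • (p - m) + (1 / 2 : ℝ) • (-w) ∈ K :=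
      hK hm.2 (hLK hw) (by norm_num) (by norm_num) (by norm_num)
    refine ⟨_, hx, ?_⟩
    simp only [smul_sub, smul_add, smul_neg, smul_smul]
    module

variable [MeasurableSpace V] [BorelSpace V] (μ : Measure V) [μ.IsAddHaarMeasure]

theorem qs_vol {K L : Set V} {κ : ℝ} (hκ : 0 < κ) (l₀ : V) :
    μ.real (Qs K L κ l₀) = ((1 + κ) / 2) ^ finrank ℝ V * μ.real (K - L) := by
  have e : Qs K L κ l₀ = (fun t => (-κ) • l₀ + t) ⁻¹' (((1 + κ) / 2) • (K - L)) := rfl
  rw [e, measureReal_def, measure_preimage_add]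
  exact vol_smul μ (by positivity) _

theorem qs_fin {K L : Set V} (hK : IsCompact K) (hL : IsCompact L) (κ : ℝ) (l₀ : V) :
    μ (Qs K L κ l₀) ≠ ⊤ := by
  have e : Qs K L κ l₀ = (fun t => (-κ) • l₀ + t) ⁻¹' (((1 + κ) / 2) • (K - L)) := rfl
  rw [e, measure_preimage_add]
  exact ((sub_comp hK hL).smul _).measure_lt_top.ne

/-- Lower bound for the volume. -/
theorem ts_vol {K L : Set V} (hK : Convex ℝ K) (hKc : IsCompact K) (hL : Convex ℝ L)
    (hLc : IsCompact L) (hLK : L ⊆ K) {κ : ℝ} (hκ0 : 0 < κ) (hκ1 : κ < 1) {l₀ p : V}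
    (hl : l₀ ∈ L) (hp : p ∈ K) (r : ℝ) (hr : 0 < r)
    (h : μ.real (Mac K p) = r ^ finrank ℝ V * μ.real L) :
    ((1 - κ) / 2 * (1 + r)) ^ finrank ℝ V * μ.real L ≤ μ.real (Ts K L κ l₀ p) := by
  set d := finrank ℝ V with hd
  have hκ2 : 0 < (1 - κ) / 2 := by linarith
  set s := 2 / (1 - κ) with hs
  have hs0 : 0 < s := by rw [hs]; exact div_pos two_pos (by linarith)
  set a := (-(s * ((1 + κ) / 2))) • p with ha
  set N : Set V := {z | a + s • z ∈ Mac K p} with hN
  have hNe : N = (fun v => s • v) ⁻¹' ((fun v => a + v) ⁻¹' Mac K p) := rfl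
  have hNf : μ N ≠ ⊤ := by
    rw [hNe, Measure.addHaar_preimage_smul μ hs0.ne', measure_preimage_add]
    exact ENNReal.mul_ne_top ENNReal.ofReal_ne_top (mac_comp hKc p).measure_lt_top.ne
  have hNm : MeasurableSet N := by
    have : IsClosed N := (mac_comp hKc p).isClosed.preimage (by fun_prop)
    exact this.measurableSet
  have hLm : MeasurableSet (-L) := hLc.neg.isClosed.measurableSet
  have hLv : μ.real (-L) = μ.real L := by
    rw [measureReal_def, Measure.measure_neg]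
    rfl
  have hTf : μ (Ts K L κ l₀ p) ≠ ⊤ :=
    ne_top_of_le_ne_top (qs_fin μ hKc hLc κ l₀) (measure_mono (ts_sub κ l₀ p))
  have key := Pool.Agent.K3h76.UC.bm μ d hd.symm N (-L) (Ts K L κ l₀ p) hNm hLm
    (ts_closed hKc hLc κ l₀ p).measurableSet hNf hLc.neg.measure_lt_top.ne hTf
    ((1 - κ) / 2 * r) ((1 - κ) / 2) (by positivity) hκ2 (by
      rw [hN, vol_pre μ hs0, ← hd, hLv, h, mul_pow]
      have e : 1 / s = (1 - κ) / 2 := by rw [hs, one_div_div]
      rw [e]
      ring) (by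
      intro z hz w hw
      have h1 := ts_mem hK hL hLK hκ0 hκ1 hl hp (m := a + s • z) hz hw
      have e : ((1 - κ) / 2) • (a + s • z) + ((1 + κ) / 2) • p = z := by
        rw [ha, smul_add, smul_smul, smul_smul]
        have e1 : (1 - κ) / 2 * s = 1 := by
          rw [hs]
          have : 1 - κ ≠ 0 := by linarith
          field_simp
        have e2 : (1 - κ) / 2 * -(s * ((1 + κ) / 2)) = -((1 + κ) / 2) := by
          have : (1 - κ) / 2 * -(s * ((1 + κ) / 2)) = -(((1 - κ) / 2 * s) * ((1 + κ) / 2)) := by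
            ring
          rw [this, e1, one_mul]
        rw [e1, e2]
        module
      rwa [e] at h1)
  rw [hLv] at key
  refine le_trans (le_of_eq ?_) key
  congr 2
  ring

end Pool.Agent.K3h52.LF
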