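import Mathlib

set_option autoImplicit false

/-!
Random choice of translates with different covering probabilities.
-/

namespace Pool.Agent.K3h52.LF

open MeasureTheory

variable {V : Type*} [MeasurableSpace V] (μ : Measure V)

open scoped Classical in
/-- One step. -/
theorem step (F : Finset V) (Q : Set V) (hQ : MeasurableSet Q) (hQ0 : 0 < μ.real Q)
    (T : V → Set V) (hT : ∀ p ∈ F, MeasurableSet (T p)) (hTQ : ∀ p ∈ F, T p ⊆ Q) (c v : V → ℝ)
    (hvol : ∀ p ∈ F, c p * μ.real Q ≤ μ.real (T p)) (hv : ∀ p ∈ F, 0 ≤ v p) :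
    ∃ t : V, ∑ p ∈ F with t ∈ T p, v p ≥ ∑ p ∈ F, v p * c p := by

  have hQf : μ Q ≠ ⊤ := by
    intro h
    rw [measureReal_def, h, ENNReal.toReal_top] at hQ0
    exact lt_irrefl _ hQ0
  have hQne : μ Q ≠ 0 := by
    intro h
    rw [measureReal_def, h, ENNReal.toReal_zero] at hQ0
    exact lt_irrefl _ hQ0
  set f : V → ℝ := fun t => ∑ p ∈ F, v p * (T p).indicator (fun _ => (1 : ℝ)) t with hf
  have hint : ∀ p ∈ F, IntegrableOn (fun t => v p * (T p).indicator (fun _ => (1 : ℝ)) t) Q μ := by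
    intro p hp
    refine Integrable.const_mul ?_ _
    refine (integrable_indicator_iff (hT p hp)).2 ?_
    refine integrableOn_const ?_
    exact ne_top_of_le_ne_top hQf (Measure.restrict_apply_le _ _ |>.trans (measure_mono (hTQ p hp)))
  have hfi : IntegrableOn f Q μ := integrable_finsetSum F hint
  obtain ⟨t, -, ht⟩ := exists_setAverage_le hQne hQf hfi
  refine ⟨t, ?_⟩
  have h1 : ∫ x in Q, f x ∂μ = ∑ p ∈ F, v p * μ.real (T p) := by
    rw [hf, integral_finsetSum F hint]
    refine Finset.sum_congr rfl fun p hp => ?_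
    rw [integral_const_mul]
    congr 1
    rw [setIntegral_indicator (hT p hp), Set.inter_eq_right.2 (hTQ p hp)]
    simp
  rw [setAverage_eq, h1, smul_eq_mul, inv_mul_le_iff₀ hQ0] at ht
  have h2 : f t = ∑ p ∈ F with t ∈ T p, v p := by
    rw [hf, Finset.sum_filter]
    refine Finset.sum_congr rfl fun p _ => ?_
    by_cases h : t ∈ T p
    · rw [Set.indicator_of_mem h, if_pos h, mul_one]
    · rw [Set.indicator_of_notMem h, if_neg h, mul_zero]
  rw [← h2, ge_iff_le]
  have h3 : μ.real Q * ∑ p ∈ F, v p * c p ≤ μ.real Q * f t := by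
    refine le_trans ?_ ht
    rw [Finset.mul_sum]
    refine Finset.sum_le_sum fun p hp => ?_
    have := mul_le_mul_of_nonneg_left (hvol p hp) (hv p hp)
    linarith
  exact le_of_mul_le_mul_left h3 hQ0

open scoped Classical in
/-- Several steps. -/
theorem select (Q : Set V) (hQ : MeasurableSet Q) (hQ0 : 0 < μ.real Q)
    (T : V → Set V) (c : V → ℝ) (m : ℕ) :
    ∀ (F : Finset V) (_ : ∀ p ∈ F, MeasurableSet (T p)) (_ : ∀ p ∈ F, T p ⊆ Q)
    (_ : ∀ p ∈ F, c p * μ.real Q ≤ μ.real (T p)) (w : V → ℝ) (_ : ∀ p ∈ F, 0 ≤ w p),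
    ∃ Y : Finset V, Y.card ≤ m ∧
      ∑ p ∈ F with (∀ t ∈ Y, t ∉ T p), w p ≤ ∑ p ∈ F, w p * (1 - c p) ^ m := by

  have hQf : μ Q ≠ ⊤ := by
    intro h
    rw [measureReal_def, h, ENNReal.toReal_top] at hQ0
    exact lt_irrefl _ hQ0
  induction m with
  | zero =>
    intro F hT hTQ hvol w hw
    refine ⟨∅, by simp, ?_⟩
    simp
  | succ m ih =>
    intro F hT hTQ hvol w hw
    have hc1 : ∀ p ∈ F, c p ≤ 1 := by
      intro p hp
      have h1 : μ.real (T p) ≤ μ.real Q := measureReal_mono (hTQ p hp) hQf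
      have h2 := (hvol p hp).trans h1
      by_contra hcon
      push Not at hcon
      nlinarith
    obtain ⟨t, ht⟩ := step μ F Q hQ hQ0 T hT hTQ c (fun p => w p * (1 - c p) ^ m) hvol
      (fun p hp => mul_nonneg (hw p hp) (pow_nonneg (by linarith [hc1 p hp]) _))
    obtain ⟨Y, hY, hsum⟩ := ih (F.filter fun p => t ∉ T p)
      (fun p hp => hT p (Finset.mem_filter.1 hp).1) (fun p hp => hTQ p (Finset.mem_filter.1 hp).1)
      (fun p hp => hvol p (Finset.mem_filter.1 hp).1) w
      (fun p hp => hw p (Finset.mem_filter.1 hp).1)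
    refine ⟨insert t Y, (Finset.card_insert_le t Y).trans (by omega), ?_⟩
    have e1 : (F.filter fun p => ∀ s ∈ insert t Y, s ∉ T p) =
        ((F.filter fun p => t ∉ T p).filter fun p => ∀ s ∈ Y, s ∉ T p) := by
      ext p
      simp only [Finset.mem_filter, Finset.mem_insert, forall_eq_or_imp]
      tauto
    rw [e1]
    refine hsum.trans ?_
    have h2 := Finset.sum_filter_add_sum_filter_not F (fun p => t ∈ T p)
      (fun p => w p * (1 - c p) ^ m)
    have h3 : ∑ p ∈ F, w p * (1 - c p) ^ (m + 1) =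
        ∑ p ∈ F, w p * (1 - c p) ^ m - ∑ p ∈ F, (w p * (1 - c p) ^ m) * c p := by
      rw [← Finset.sum_sub_distrib]
      refine Finset.sum_congr rfl fun p _ => ?_
      rw [pow_succ]
      ring
    rw [h3]
    linarith

end Pool.Agent.K3h52.LF
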