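import Pool.Agent.K3h52.LF.Cover
import Pool.Agent.K3h52.LF.Sel

set_option autoImplicit false
set_option linter.unusedSectionVars false

/-!
The covering of `A + B`.
-/

namespace Pool.Agent.K3h52.LF

open scoped RealInnerProductSpace Pointwise
open Module MeasureTheory
open Pool.Agent.H845R2 (SB pol pol_anti pol_closed pol_convex)
open Pool.Agent.K3h52.HR

theorem exp_neg_le {x : ℝ} (hx : 0 < x) : Real.exp (-x) ≤ 1 / (Real.exp 1 * x) := by
  have h1 := Real.add_one_le_exp (x - 1)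
  rw [sub_add_cancel, Real.exp_sub, le_div_iff₀ (Real.exp_pos 1)] at h1
  rw [Real.exp_neg, ← one_div]
  exact one_div_le_one_div_of_le (by positivity) (by linarith)

variable {V : Type*} [NormedAddCommGroup V] [InnerProductSpace ℝ V] [FiniteDimensional ℝ V]
  [MeasurableSpace V] [BorelSpace V] (μ : Measure V) [μ.IsAddHaarMeasure]

/-- The points of the net are covered by few translates. -/
theorem few {K L : Set V} (hK : Bd K) (hL : Convex ℝ L) (hLc : IsCompact L)
    (hLi : (interior L).Nonempty) (hLK : L ⊆ K) (hd : 1 ≤ finrank ℝ V) {κ : ℝ} (hκ0 : 0 < κ)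
    (hκ1 : κ < 1)
    (F : Finset V) (hF : ∀ p ∈ F, p ∈ interior K) (G : ℝ)
    (hG : ∑ p ∈ F, μ.real K / μ.real (Mac K p) ≤ G) (m : ℕ) (ν : ℝ) (hν : 0 < ν)
    (hm : ν * (((1 + κ) / (1 - κ)) ^ finrank ℝ V * μ.real (K - L)) ≤ m * μ.real L)
    (hsum : G * (Real.exp (-ν) * (1 / (Real.exp 1 * ν)) ^ finrank ℝ V) < 1) :
    ∃ Y : Finset V, Y.card ≤ m ∧ ∀ p ∈ F, ∃ t ∈ Y, p - t ∈ (1 - κ) • K := by
  classical
  obtain ⟨l₀, hl₀⟩ : L.Nonempty := hLi.mono interior_subset
  set d := finrank ℝ V with hdd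
  have hd0 : d ≠ 0 := by omega
  have hKc := hK.comp
  have hKr : 0 < μ.real K := TP.real_pos' μ hK.comp ⟨0, hK.i0⟩
  have hLr : 0 < μ.real L := TP.real_pos' μ hLc hLi
  have hLKr : μ.real L ≤ μ.real K := measureReal_mono hLK hKc.measure_lt_top.ne
  have hKL : 0 < μ.real (K - L) := by
    refine TP.real_pos' μ (sub_comp hKc hLc) ?_
    refine ⟨0 - l₀, ?_⟩
    have h1 : interior K - L ⊆ interior (K - L) :=
      interior_maximal (Set.sub_subset_sub_right interior_subset)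
        (isOpen_interior.sub_right)
    exact h1 (Set.sub_mem_sub hK.i0 hl₀)
  have hκ2 : 0 < 1 - κ := by linarith
  have hκ3 : 0 < 1 + κ := by linarith
  have hQv : μ.real (Qs K L κ l₀) = ((1 + κ) / 2) ^ d * μ.real (K - L) := qs_vol μ hκ0 l₀
  have hQ0 : 0 < μ.real (Qs K L κ l₀) := by rw [hQv]; positivity
  have hs0 : ∀ p ∈ F, 0 < μ.real (Mac K p) := fun p hp =>
    TP.real_pos' μ (mac_comp hK.comp p) (mac_sb hK.conv hK.comp (hF p hp)).int
  set r : V → ℝ := fun p => (μ.real (Mac K p) / μ.real L) ^ ((d : ℝ)⁻¹) with hr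
  have hr0 : ∀ p ∈ F, 0 < r p := fun p hp => Real.rpow_pos_of_pos (div_pos (hs0 p hp) hLr) _
  have hrd : ∀ p ∈ F, r p ^ d = μ.real (Mac K p) / μ.real L := fun p hp =>
    Real.rpow_inv_natCast_pow (div_pos (hs0 p hp) hLr).le hd0
  set c₀ := ((1 - κ) / (1 + κ)) ^ d * (μ.real L / μ.real (K - L)) with hc₀
  have hc₀0 : 0 < c₀ := by positivity
  set c : V → ℝ := fun p => c₀ * (1 + r p) ^ d with hc
  have hvol : ∀ p ∈ F, c p * μ.real (Qs K L κ l₀) ≤ μ.real (Ts K L κ l₀ p) := by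
    intro p hp
    refine le_trans (le_of_eq ?_) (ts_vol μ hK.conv hKc hL hLc hLK hκ0 hκ1 hl₀
      (interior_subset (hF p hp)) (r p) (hr0 p hp) ?_)
    · rw [hQv, hc, hc₀, ← hdd]
      simp only
      rw [mul_pow, div_pow, div_pow, div_pow]
      field_simp
    · rw [← hdd, hrd p hp]
      field_simp
  obtain ⟨Y, hY, hYs⟩ := select μ (Qs K L κ l₀) (qs_closed hKc hLc κ l₀).measurableSet hQ0
    (Ts K L κ l₀) c m F (fun p _ => (ts_closed hKc hLc κ l₀ p).measurableSet)
    (fun p _ => ts_sub κ l₀ p) hvol (fun _ => 1) (fun _ _ => zero_le_one)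
  refine ⟨Y, hY, ?_⟩
  have hc1 : ∀ p ∈ F, c p ≤ 1 := by
    intro p hp
    have h1 : μ.real (Ts K L κ l₀ p) ≤ μ.real (Qs K L κ l₀) :=
      measureReal_mono (ts_sub κ l₀ p) (qs_fin μ hKc hLc κ l₀)
    have h2 := (hvol p hp).trans h1
    by_contra hcon
    push Not at hcon
    nlinarith
  have hmν : ν ≤ m * c₀ := by
    rw [hc₀]
    have e : (m : ℝ) * (((1 - κ) / (1 + κ)) ^ d * (μ.real L / μ.real (K - L))) =
        (m * μ.real L) / (((1 + κ) / (1 - κ)) ^ d * μ.real (K - L)) := by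
      rw [div_pow, div_pow]
      field_simp
    rw [e, le_div_iff₀ (by positivity)]
    exact hm
  have hterm : ∀ p ∈ F, (1 : ℝ) * (1 - c p) ^ m ≤
      (Real.exp (-ν) * (1 / (Real.exp 1 * ν)) ^ d) * (μ.real K / μ.real (Mac K p)) := by
    intro p hp
    have hrp := hr0 p hp
    have h1 : (1 - c p) ^ m ≤ Real.exp (-(m * c p)) := by
      have h2 : 1 - c p ≤ Real.exp (-c p) := by
        have := Real.add_one_le_exp (-c p)
        linarith
      calc (1 - c p) ^ m ≤ Real.exp (-c p) ^ m :=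
            pow_le_pow_left₀ (by linarith [hc1 p hp]) h2 _
        _ = Real.exp (-(m * c p)) := by
            rw [← Real.exp_nat_mul]
            congr 1
            ring
    have h2 : ν * (1 + d * r p) ≤ m * c p := by
      have h3 : 1 + d * r p ≤ (1 + r p) ^ d := one_add_mul_le_pow (by linarith) d
      calc ν * (1 + d * r p) ≤ (m * c₀) * (1 + r p) ^ d :=
            mul_le_mul hmν h3 (by positivity) (by positivity)
        _ = m * c p := by rw [hc]; ring
    have h4 : Real.exp (-(ν * (1 + d * r p))) = Real.exp (-ν) * Real.exp (-(ν * r p)) ^ d := by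
      rw [← Real.exp_nat_mul, ← Real.exp_add]
      congr 1
      ring
    have h5 : Real.exp (-(ν * r p)) ^ d ≤
        (1 / (Real.exp 1 * ν)) ^ d * (μ.real K / μ.real (Mac K p)) := by
      have h6 := exp_neg_le (show 0 < ν * r p by positivity)
      calc Real.exp (-(ν * r p)) ^ d ≤ (1 / (Real.exp 1 * (ν * r p))) ^ d :=
            pow_le_pow_left₀ (Real.exp_pos _).le h6 _
        _ = (1 / (Real.exp 1 * ν)) ^ d * (1 / r p ^ d) := by
            rw [← one_div_pow, ← mul_pow]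
            congr 1
            field_simp
        _ = (1 / (Real.exp 1 * ν)) ^ d * (μ.real L / μ.real (Mac K p)) := by
            rw [hrd p hp, one_div_div]
        _ ≤ _ := by
            refine mul_le_mul_of_nonneg_left ?_ (by positivity)
            exact div_le_div_of_nonneg_right hLKr (hs0 p hp).le
    calc (1 : ℝ) * (1 - c p) ^ m ≤ Real.exp (-(m * c p)) := by rw [one_mul]; exact h1
      _ ≤ Real.exp (-(ν * (1 + d * r p))) := Real.exp_le_exp.2 (neg_le_neg h2)
      _ = Real.exp (-ν) * Real.exp (-(ν * r p)) ^ d := h4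
      _ ≤ Real.exp (-ν) * ((1 / (Real.exp 1 * ν)) ^ d * (μ.real K / μ.real (Mac K p))) :=
          mul_le_mul_of_nonneg_left h5 (Real.exp_pos _).le
      _ = _ := by ring
  have hlt : ∑ p ∈ F with (∀ t ∈ Y, t ∉ Ts K L κ l₀ p), (1 : ℝ) < 1 := by
    refine lt_of_le_of_lt hYs (lt_of_le_of_lt (Finset.sum_le_sum hterm) ?_)
    rw [← Finset.mul_sum]
    refine lt_of_le_of_lt ?_ hsum
    rw [mul_comm]
    exact mul_le_mul_of_nonneg_right hG (by positivity)
  rw [Finset.sum_const, nsmul_eq_mul, mul_one] at hlt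
  have hemp : (F.filter fun p => ∀ t ∈ Y, t ∉ Ts K L κ l₀ p) = ∅ := by
    rw [← Finset.card_eq_zero]
    have : (F.filter fun p => ∀ t ∈ Y, t ∉ Ts K L κ l₀ p).card < 1 := by exact_mod_cast hlt
    omega
  intro p hp
  by_contra hcon
  push Not at hcon
  have : p ∈ (F.filter fun p => ∀ t ∈ Y, t ∉ Ts K L κ l₀ p) :=
    Finset.mem_filter.2 ⟨hp, fun t ht h => hcon t ht h.2⟩
  rw [hemp] at this
  simp at this

/-- **Covering.** -/
theorem cov_lin {A B L : Set V} (hA : Convex ℝ A) (hAc : IsCompact A)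
    (hL : Convex ℝ L) (hLc : IsCompact L) (hLi : (interior L).Nonempty) (hLA : L ⊆ A)
    (hB : Convex ℝ B) (hBc : IsCompact B) (hBn : B.Nonempty)
    (hd : 1 ≤ finrank ℝ V) (VL VU : ℝ) (hVL : 0 < VL)
    (hVL' : ∀ S : Set V, SB S → VL ≤ μ.real S * μ.real (pol S))
    (hU : ∀ S : Set V, SB S → μ.real S * μ.real (pol S) ≤ VU) {ζ κ : ℝ} (hζ : 0 < ζ)
    (hκ : 2 * ζ < κ) (hκ1 : κ < 1) (m : ℕ) (ν : ℝ) (hν : 0 < ν)
    (hm : ν * (((1 + κ) / (1 - κ)) ^ finrank ℝ V * μ.real (A - L)) ≤ m * μ.real L)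
    (hsum : 4 * (1 / ζ + 1) ^ 2 * (VU / VL) ^ 2 * (4096 / ζ) ^ finrank ℝ V *
      (Real.exp (-ν) * (1 / (Real.exp 1 * ν)) ^ finrank ℝ V) < 1) :
    ∃ T : Finset V, A + B ⊆ ⋃ t ∈ T, (fun x => t + x) '' interior (A + B) ∧ T.card ≤ m := by
  obtain ⟨c, hK, hKK⟩ := origin μ hA hAc (hLi.mono (interior_mono hLA)) VU hU
  set K : Set V := {v | c + v ∈ A} with hKdef
  set L' : Set V := {v | c + v ∈ L} with hLdef
  have hζ1 : ζ < 1 := by linarith
  have hκ0 : 0 < κ := by linarith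
  obtain ⟨F, hFG, hF⟩ := net hK hζ hζ1 _
    (fun F hF => good_card μ hK hζ hζ1 VL VU hVL hVL' hU hKK F hF)
  have hinv := inv_sum μ hK hζ hζ1 VL VU hVL hVL' hU hKK F hFG
  have hvL : μ.real L' = μ.real L := by
    have e : L' = (fun v => c + v) ⁻¹' L := rfl
    rw [e, measureReal_def, measure_preimage_add]
    rfl
  have hKA : K - L' = A - L := by
    ext x
    constructor
    · rintro ⟨a, ha, b, hb, rfl⟩
      exact ⟨c + a, ha, c + b, hb, by simp⟩
    · rintro ⟨a, ha, b, hb, rfl⟩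
      refine ⟨a - c, ?_, b - c, ?_, by simp⟩
      · show c + (a - c) ∈ A
        rwa [add_sub_cancel]
      · show c + (b - c) ∈ L
        rwa [add_sub_cancel]
  have hL'c : IsCompact L' := by
    refine (hLc.image (f := fun y => y - c) (by fun_prop)).of_isClosed_subset
      (hLc.isClosed.preimage (by fun_prop)) ?_
    intro a ha
    exact ⟨c + a, ha, by simp⟩
  have hL'i : (interior L').Nonempty := by
    obtain ⟨z, hz⟩ := hLi
    have h1 : IsOpen ((fun v => c + v) ⁻¹' interior L) := isOpen_interior.preimage (by fun_prop)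
    refine ⟨z - c, interior_maximal (s := L') (t := (fun v => c + v) ⁻¹' interior L)
      (fun a ha => interior_subset (s := L) ha) h1 ?_⟩
    show c + (z - c) ∈ interior L
    rwa [add_sub_cancel]
  have hL'v : Convex ℝ L' := hL.translate_preimage_right c
  obtain ⟨Y, hYm, hY⟩ := few μ (L := L') hK hL'v hL'c hL'i
    (fun v hv => hLA hv) hd hκ0 hκ1 F (good_int hK hζ hζ1 hFG) _ hinv m ν hν
    (by rw [hKA, hvL]; exact hm) hsum
  obtain ⟨T, hT, hcov⟩ := lit_cov hA hAc hB hBc hBn hd c hK (by linarith : 0 < 1 - κ)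
    (by linarith : 1 - κ < 1 - 2 * ζ) F Y hF hY
  exact ⟨T, hcov, hT.trans hYm⟩

end Pool.Agent.K3h52.LF
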