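import Pool.Agent.K3h52.HR.Caps
import Pool.Agent.K3h52.HR.Lit

set_option autoImplicit false
set_option linter.unusedSectionVars false

/-!
A maximal net near the boundary and the sum of the reciprocals of its volumes.
-/

namespace Pool.Agent.K3h52.LF

open scoped RealInnerProductSpace Pointwise
open Module MeasureTheory
open Pool.Agent.H845R2 (SB pol pol_anti pol_closed pol_convex)
open Pool.Agent.K3h52.HR

variable {V : Type*} [NormedAddCommGroup V] [InnerProductSpace ℝ V] [FiniteDimensional ℝ V]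

theorem good_int {K : Set V} (hK : Bd K) {ζ : ℝ} (hζ : 0 < ζ) (hζ1 : ζ < 1) {F : Finset V}
    (hF : Good K ζ F) : ∀ p ∈ F, p ∈ interior K := by
  intro p hp
  obtain ⟨x', hx', -, rfl⟩ := hF.1 p hp
  have := hK.conv.combo_self_interior_mem_interior hx' hK.i0 (by linarith : 0 ≤ 1 - ζ) hζ (by ring)
  rwa [smul_zero, add_zero] at this

theorem net {K : Set V} (hK : Bd K) {ζ : ℝ} (hζ : 0 < ζ) (hζ1 : ζ < 1) (N : ℝ)
    (hN : ∀ F : Finset V, Good K ζ F → (F.card : ℝ) ≤ N) :
    ∃ F : Finset V, Good K ζ F ∧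
      ∀ x' ∈ K, x' ∉ interior K → ∃ p ∈ F, (2 : ℝ) • ((1 - ζ) • x') - p ∈ K := by
  classical
  borelize V
  let M : Set ℕ := {n | ∃ S, Good K ζ S ∧ S.card = n}
  have hMne : M.Nonempty := ⟨0, ∅, ⟨by simp, by simp⟩, rfl⟩
  have hMb : BddAbove M := by
    refine ⟨⌊N⌋₊, ?_⟩
    rintro n ⟨S, hS, rfl⟩
    exact Nat.le_floor (hN S hS)
  obtain ⟨F, hF, hcard⟩ := Nat.sSup_mem hMne hMb
  refine ⟨F, hF, ?_⟩
  intro x' hx' hxi
  by_contra hcon
  push Not at hcon
  set x := (1 - ζ) • x' with hx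
  have hdis : ∀ p ∈ F, Disjoint (Mth K x) (Mth K p) := by
    intro p hp
    rw [Set.disjoint_left]
    intro z hz hz'
    exact hcon p hp (mth_meet hK.conv hz hz')
  have hxF : x ∉ F := by
    intro h
    have h1 := hcon x h
    apply h1
    have e : (2 : ℝ) • x - x = x := by rw [two_smul]; abel
    rw [e]
    exact hK.conv.smul_mem_of_zero_mem hK.zero hx' ⟨by linarith, by linarith⟩
  have hG : Good K ζ (insert x F) := by
    constructor
    · intro p hp
      rcases Finset.mem_insert.mp hp with rfl | hp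
      · exact ⟨x', hx', hxi, hx⟩
      · exact hF.1 p hp
    · intro p hp q hq hne
      rcases Finset.mem_insert.mp hp with h1 | hp <;> rcases Finset.mem_insert.mp hq with h2 | hq
      · exact absurd (h1.trans h2.symm) hne
      · rw [h1]; exact hdis q hq
      · rw [h2]; exact (hdis p hp).symm
      · exact hF.2 p hp q hq hne
  have hle : (insert x F).card ≤ sSup M := le_csSup hMb ⟨_, hG, rfl⟩
  rw [Finset.card_insert_of_notMem hxF] at hle
  omega

variable [MeasurableSpace V] [BorelSpace V] (μ : Measure V) [μ.IsAddHaarMeasure]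

/-- The sum of the reciprocals of the volumes. -/
theorem inv_sum {K : Set V} (hK : Bd K) {ζ : ℝ} (hζ : 0 < ζ) (hζ1 : ζ < 1) (VL VU : ℝ)
    (hVL : 0 < VL) (hL : ∀ S : Set V, SB S → VL ≤ μ.real S * μ.real (pol S))
    (hU : ∀ S : Set V, SB S → μ.real S * μ.real (pol S) ≤ VU)
    (hKK : μ.real K * μ.real (pol K) ≤ 2 ^ finrank ℝ V * VU) (F : Finset V) (hF : Good K ζ F) :
    ∑ p ∈ F, μ.real K / μ.real (Mac K p) ≤
      4 * (1 / ζ + 1) ^ 2 * (VU / VL) ^ 2 * (4096 / ζ) ^ finrank ℝ V := by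
  set d := finrank ℝ V with hd
  set β := VL / ((1 / ζ + 1) * (8 / ζ) ^ d) with hβ
  have hβ0 : 0 < β := by positivity
  have hβF : ∀ p ∈ F, β ≤ μ.real (dcap K ζ p) * μ.real (Mac K p) := by
    intro p hp
    obtain ⟨x', hx', hxi, rfl⟩ := hF.1 p hp
    obtain ⟨u₀, hu₀, h1⟩ := support hK hxi
    rcases h1 with h1 | h1
    · have h2 := beta μ hK hx' hu₀ h1 hζ hζ1 VL hL
      rw [hβ, div_le_iff₀ (by positivity)]
      rw [← hd] at h2
      linarith
    · exact absurd hx' h1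
  have h := caps μ hK hζ F (good_int hK hζ hζ1 hF) hF.2 β hβ0 hβF VU hU hKK
  rw [← hd] at h
  have h3 : ∑ p ∈ F, μ.real K / μ.real (Mac K p) ≤ 4 * (64 * ζ) ^ d * VU ^ 2 / β ^ 2 := by
    rw [le_div_iff₀ (by positivity)]
    exact h
  refine h3.trans (le_of_eq ?_)
  rw [hβ]
  have e3 : (4096 / ζ) ^ d = (64 * ζ) ^ d * ((8 / ζ) ^ d) ^ 2 := by
    rw [← pow_mul, mul_comm d 2, pow_mul, ← mul_pow]
    congr 1
    field_simp
    norm_num
  rw [e3]
  field_simp

end Pool.Agent.K3h52.LF
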