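import Pool.Agent.K3h52.LF.Main
import Pool.Agent.K3h52.HR.Num

set_option autoImplicit false
set_option exponentiation.threshold 2000

/-!
Constants and the final estimate.
-/

namespace Pool.Agent.K3h52.LF

open scoped RealInnerProductSpace Pointwise ENNReal
open Module MeasureTheory Real
open Pool.Agent.H845R2 (SB pol MV)
open Pool.Agent.K3h52.HR

/-- The final estimate. -/
theorem final (d : ℕ) (hd : 3 ≤ d) (h10 : 10 ≤ log d + log (log d)) (D : ℝ) (hD : 1 ≤ D) :
    ∃ ζ κ ν : ℝ, 0 < ζ ∧ 2 * ζ < κ ∧ κ < 1 ∧ 0 < ν ∧ ∃ m : ℕ,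
      ν * (((1 + κ) / (1 - κ)) ^ d * D) ≤ m ∧
      4 * (1 / ζ + 1) ^ 2 * ((2 * π * exp 1 / d) ^ d / (3.58 ^ d / (d.factorial : ℝ))) ^ 2 *
        (4096 / ζ) ^ d * (exp (-ν) * (1 / (exp 1 * ν)) ^ d) < 1 ∧
      (m : ℝ) ≤ 11 * d * D := by
  have hd3 : (3 : ℝ) ≤ d := by exact_mod_cast hd
  have hd0 : (0 : ℝ) < d := by linarith
  set l := log (d : ℝ) with hl
  have hl0' : 0 < l := Real.log_pos (by linarith)
  have hl1 : 7.928 ≤ l := by
    by_contra hcon
    push Not at hcon
    have h1 : log l ≤ log 7.928 := Real.log_le_log hl0' hcon.le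
    have h2 := log_le 7.928 (by norm_num) 29 14 (by norm_num) (by norm_num)
    have : ((29 : ℕ) : ℝ) / (14 : ℕ) ≤ 2.072 := by norm_num
    linarith
  have h2770 : log 2770 ≤ 7.9275 := by
    have h1 := log_le 2770 (by norm_num) 436 55 (by norm_num) (by norm_num)
    have : ((436 : ℕ) : ℝ) / (55 : ℕ) ≤ 7.9275 := by norm_num
    linarith
  have hd1 : (2770 : ℝ) ≤ d := by
    have h2 : log 2770 ≤ l := by linarith
    exact (Real.log_le_log_iff (by norm_num) hd0).1 h2
  have hl2 : l ≤ 0.00287 * d := by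
    have h1 := Real.log_le_sub_one_of_pos (show 0 < (d : ℝ) / 2770 by positivity)
    rw [Real.log_div hd0.ne' (by norm_num)] at h1
    linarith
  set ζ := 1 / (40 * (d : ℝ)) with hζ
  have hζ0 : 0 < ζ := by positivity
  set κ := 0.0505 / (d : ℝ) with hκ
  have hκ0 : 0 < κ := by positivity
  have hκ1 : κ ≤ 0.00002 := by
    rw [hκ, div_le_iff₀ hd0]
    linarith
  set ν := 9.86 * (d : ℝ) with hν
  have hν0 : 0 < ν := by positivity
  have hz : 1 / ζ = 40 * d := by rw [hζ, one_div_one_div]
  have hR := ratio d (by omega)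
  have hR0 : 0 ≤ (2 * π * exp 1 / d) ^ d / (3.58 ^ d / (d.factorial : ℝ)) := by positivity
  have hmain : 4 * (1 / ζ + 1) ^ 2 * ((2 * π * exp 1 / d) ^ d /
      (3.58 ^ d / (d.factorial : ℝ))) ^ 2 *
        (4096 / ζ) ^ d * (exp (-ν) * (1 / (exp 1 * ν)) ^ d) < 1 := by
    have h1 : 4 * (1 / ζ + 1) ^ 2 * ((2 * π * exp 1 / d) ^ d /
        (3.58 ^ d / (d.factorial : ℝ))) ^ 2 *
          (4096 / ζ) ^ d * (exp (-ν) * (1 / (exp 1 * ν)) ^ d) ≤
        4 * (1 / ζ + 1) ^ 2 * (exp 1 * d * 1.7551 ^ d) ^ 2 *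
          (4096 / ζ) ^ d * (exp (-ν) * (1 / (exp 1 * ν)) ^ d) := by
      gcongr
    have h2 : 4 * (1 / ζ + 1) ^ 2 * (exp 1 * d * 1.7551 ^ d) ^ 2 *
          (4096 / ζ) ^ d * (exp (-ν) * (1 / (exp 1 * ν)) ^ d) =
        (4 * (40 * d + 1) ^ 2 * (exp 1 * d) ^ 2) *
          (1.7551 ^ 2 * 163840 / 9.86 * exp (-10.86)) ^ d := by
      have e1 : exp (-ν) = exp (-9.86) ^ d := by
        rw [← Real.exp_nat_mul, hν]
        congr 1
        ring
      have e2 : (4096 / ζ) ^ d = (163840 * d) ^ d := by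
        congr 1
        rw [hζ]
        field_simp
        norm_num
      have e3 : exp (-10.86) = exp (-9.86) / exp 1 := by
        rw [← Real.exp_sub]
        norm_num
      have e4 : (1.7551 ^ 2 * 163840 / 9.86 * exp (-10.86)) ^ d =
          (1.7551 ^ d) ^ 2 * (163840 * d) ^ d * (exp (-9.86) ^ d * (1 / (exp 1 * ν)) ^ d) := by
        rw [← pow_mul, mul_comm d 2, pow_mul, ← mul_pow, ← mul_pow, ← mul_pow]
        congr 1
        rw [e3, hν]
        field_simp
      rw [e4, hz, e1, e2]
      ring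
    have h3 : 4 * (40 * (d : ℝ) + 1) ^ 2 * (exp 1 * d) ^ 2 ≤ exp (0.0163 * d) := by
      have he := Real.exp_one_lt_d9
      have h4 : 4 * (40 * (d : ℝ) + 1) ^ 2 * (exp 1 * d) ^ 2 ≤
          4 * (40.001 * d) ^ 2 * (2.7182818286 * d) ^ 2 := by
        gcongr
        linarith
      have h5 : (47300 : ℝ) ≤ exp 10.767 := by
        have h7 := log_le 47300 (by norm_num) 323 30 (by norm_num) (by norm_num)
        have : ((323 : ℕ) : ℝ) / (30 : ℕ) ≤ 10.767 := by norm_num
        rw [← Real.log_le_iff_le_exp (by norm_num)]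
        linarith
      have h6 : exp (4 * l) = (d : ℝ) ^ 4 := by
        have : (4 : ℝ) * l = ((4 : ℕ) : ℝ) * l := by norm_num
        rw [this, Real.exp_nat_mul, hl, exp_log hd0]
      calc 4 * (40 * (d : ℝ) + 1) ^ 2 * (exp 1 * d) ^ 2
          ≤ 4 * (40.001 * d) ^ 2 * (2.7182818286 * d) ^ 2 := h4
        _ = (4 * 40.001 ^ 2 * 2.7182818286 ^ 2) * (d : ℝ) ^ 4 := by ring
        _ ≤ 47300 * (d : ℝ) ^ 4 := by
            refine mul_le_mul_of_nonneg_right ?_ (by positivity)
            norm_num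
        _ ≤ exp 10.767 * exp (4 * l) := by
            rw [h6]
            exact mul_le_mul_of_nonneg_right h5 (by positivity)
        _ = exp (10.767 + 4 * l) := by rw [exp_add]
        _ ≤ exp (0.0163 * d) := by
            refine Real.exp_le_exp.mpr ?_
            linarith
    have h8 : 1.7551 ^ 2 * 163840 / 9.86 * exp (-10.86) ≤ exp (-0.0166) := by
      have h9 : (51186 : ℝ) ≤ exp 10.8434 := by
        have h7 := log_le 51186 (by norm_num) 900 83 (by norm_num) (by norm_num)
        have : ((900 : ℕ) : ℝ) / (83 : ℕ) ≤ 10.8434 := by norm_num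
        rw [← Real.log_le_iff_le_exp (by norm_num)]
        linarith
      calc 1.7551 ^ 2 * 163840 / 9.86 * exp (-10.86) ≤ 51186 * exp (-10.86) := by
            refine mul_le_mul_of_nonneg_right ?_ (exp_pos _).le
            norm_num
        _ ≤ exp 10.8434 * exp (-10.86) := mul_le_mul_of_nonneg_right h9 (exp_pos _).le
        _ = exp (-0.0166) := by
            rw [← exp_add]
            norm_num
    calc 4 * (1 / ζ + 1) ^ 2 * ((2 * π * exp 1 / d) ^ d /
        (3.58 ^ d / (d.factorial : ℝ))) ^ 2 *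
          (4096 / ζ) ^ d * (exp (-ν) * (1 / (exp 1 * ν)) ^ d) ≤ _ := h1
      _ = (4 * (40 * d + 1) ^ 2 * (exp 1 * d) ^ 2) *
          (1.7551 ^ 2 * 163840 / 9.86 * exp (-10.86)) ^ d := h2
      _ ≤ exp (0.0163 * d) * exp (-0.0166) ^ d :=
          mul_le_mul h3 (pow_le_pow_left₀ (by positivity) h8 d) (by positivity) (exp_pos _).le
      _ = exp (-(0.0003 * d)) := by
          rw [← Real.exp_nat_mul, ← exp_add]
          congr 1
          ring
      _ < 1 := by
          rw [Real.exp_lt_one_iff]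
          have : 0 < 0.0003 * (d : ℝ) := by positivity
          linarith
  set X := ν * (((1 + κ) / (1 - κ)) ^ d * D) with hX
  have hX0 : 0 ≤ X := by
    have : 0 ≤ (1 + κ) / (1 - κ) := div_nonneg (by linarith) (by linarith)
    positivity
  refine ⟨ζ, κ, ν, hζ0, ?_, by linarith, hν0, ⌈X⌉₊, Nat.le_ceil X, hmain, ?_⟩
  · rw [hζ, hκ]
    rw [mul_one_div, div_lt_div_iff₀ (by positivity) hd0]
    linarith
  · have h1 : (⌈X⌉₊ : ℝ) < X + 1 := Nat.ceil_lt_add_one hX0
    have h2 : ((1 + κ) / (1 - κ)) ^ d ≤ 1 / (1 - 0.1011) := by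
      have h3 : (1 + κ) / (1 - κ) ≤ exp (2 * κ / (1 - κ)) := by
        have h4 := Real.add_one_le_exp (2 * κ / (1 - κ))
        have h5 : 1 - κ ≠ 0 := by linarith
        have e : 2 * κ / (1 - κ) + 1 = (1 + κ) / (1 - κ) := by field_simp; ring
        rwa [e] at h4
      have h6 : ((1 + κ) / (1 - κ)) ^ d ≤ exp 0.1011 := by
        calc ((1 + κ) / (1 - κ)) ^ d ≤ exp (2 * κ / (1 - κ)) ^ d :=
              pow_le_pow_left₀ (div_nonneg (by linarith) (by linarith)) h3 d
          _ = exp (d * (2 * κ / (1 - κ))) := by rw [← Real.exp_nat_mul]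
          _ ≤ exp 0.1011 := by
              refine Real.exp_le_exp.mpr ?_
              have e : (d : ℝ) * (2 * κ / (1 - κ)) = 0.101 / (1 - κ) := by
                have h5 : 1 - κ ≠ 0 := by linarith
                have h7 : (d : ℝ) * (2 * κ) = 0.101 := by
                  rw [hκ]
                  field_simp
                  norm_num
                rw [← h7]
                ring
              rw [e, div_le_iff₀ (by linarith)]
              linarith
      exact h6.trans (Real.exp_bound_div_one_sub_of_interval (by norm_num) (by norm_num))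
    have h3 : X ≤ 10.97 * d * D := by
      rw [hX, hν]
      calc 9.86 * (d : ℝ) * (((1 + κ) / (1 - κ)) ^ d * D)
          ≤ 9.86 * (d : ℝ) * (1 / (1 - 0.1011) * D) := by gcongr
        _ = (9.86 * (1 / (1 - 0.1011))) * (d * D) := by ring
        _ ≤ 10.97 * (d * D) := by
            refine mul_le_mul_of_nonneg_right ?_ (by positivity)
            norm_num
        _ = 10.97 * d * D := by ring
    have h4 : (2770 : ℝ) ≤ d * D := by nlinarith
    linarith

/-- **Main theorem.** -/
theorem main (d : ℕ) (hd : 3 ≤ d) (A B L : Set (EuclideanSpace ℝ (Fin d))) (hA : Convex ℝ A)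
    (hAc : IsCompact A) (hB : Convex ℝ B) (hBc : IsCompact B) (hBn : B.Nonempty)
    (hL : Convex ℝ L) (hLc : IsCompact L) (hLi : (interior L).Nonempty) (hLA : L ⊆ A) :
    ∃ T : Finset (EuclideanSpace ℝ (Fin d)),
      A + B ⊆ ⋃ t ∈ T, (fun x => t + x) '' interior (A + B) ∧
      (T.card : ℝ) * volume.real L ≤ 11 * d * volume.real (A - L) := by
  have hfr : finrank ℝ (EuclideanSpace ℝ (Fin d)) = d := by simp
  have hAi : (interior A).Nonempty := hLi.mono (interior_mono hLA)
  have hL0 : 0 < volume.real L := TP.real_pos' volume hLc hLi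
  have hAL : IsCompact (A - L) := sub_comp hAc hLc
  have hD2 : 2 ^ d * volume.real L ≤ volume.real (A - L) := by
    have hneg : volume.real (-L) = volume.real L := by
      rw [measureReal_def, Measure.measure_neg]
      rfl
    have key := Pool.Agent.K3h76.UC.bm volume d hfr L (-L) (A - L) hLc.isClosed.measurableSet
      hLc.neg.isClosed.measurableSet hAL.isClosed.measurableSet hLc.measure_lt_top.ne
      hLc.neg.measure_lt_top.ne hAL.measure_lt_top.ne 1 1 one_pos one_pos
      (by rw [hneg, one_pow, one_mul]) (by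
        intro z hz w hw
        exact ⟨z, hLA hz, -w, hw, by simp⟩)
    rw [hneg] at key
    have : (1 + 1 : ℝ) = 2 := by norm_num
    rwa [this] at key
  rcases lt_or_ge (log (d : ℝ) + log (log d)) 10 with h10 | h10
  · obtain ⟨T, hT, hcard⟩ := HR.main d hd A B hA hAc hAi hB hBc hBn
    refine ⟨T, hT, ?_⟩
    have hd0 : (0 : ℝ) < d := by exact_mod_cast (by omega : 0 < d)
    have h1 : (T.card : ℝ) ≤ 2 ^ d * (11 * d) := by
      refine hcard.trans (mul_le_mul_of_nonneg_left ?_ (by positivity))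
      nlinarith
    calc (T.card : ℝ) * volume.real L ≤ (2 ^ d * (11 * d)) * volume.real L :=
          mul_le_mul_of_nonneg_right h1 hL0.le
      _ = 11 * d * (2 ^ d * volume.real L) := by ring
      _ ≤ _ := mul_le_mul_of_nonneg_left hD2 (by positivity)
  · set D := volume.real (A - L) / volume.real L with hD
    have hDA : D * volume.real L = volume.real (A - L) := by
      rw [hD]
      field_simp
    have hD1 : 1 ≤ D := by
      rw [hD, le_div_iff₀ hL0]
      refine le_trans ?_ hD2
      refine mul_le_mul_of_nonneg_right ?_ hL0.le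
      exact one_le_pow₀ (by norm_num)
    obtain ⟨ζ, κ, ν, hζ, hκ, hκ1, hν, m, hm, hsum, hmle⟩ := final d hd h10 D hD1
    have hVL : (0 : ℝ) < 3.58 ^ d / (d.factorial : ℝ) := by
      have : (0 : ℝ) < d.factorial := by exact_mod_cast Nat.factorial_pos d
      positivity
    obtain ⟨T, hT, hcard⟩ := cov_lin volume hA hAc hL hLc hLi hLA hB hBc hBn
      (by rw [hfr]; omega) (3.58 ^ d / (d.factorial : ℝ)) ((2 * π * exp 1 / d) ^ d) hVL (vp_lower d)
      (fun S hS => Pool.Agent.H845R2.santalo_bound (by omega) hS) hζ hκ hκ1 m ν hν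
      (by
        rw [hfr, ← hDA]
        have := mul_le_mul_of_nonneg_right hm hL0.le
        linarith) (by rw [hfr]; exact hsum)
    refine ⟨T, hT, ?_⟩
    have h1 : (T.card : ℝ) ≤ 11 * d * D := le_trans (by exact_mod_cast hcard) hmle
    calc (T.card : ℝ) * volume.real L ≤ (11 * d * D) * volume.real L :=
          mul_le_mul_of_nonneg_right h1 hL0.le
      _ = 11 * d * volume.real (A - L) := by rw [mul_assoc, hDA]

/-- The form with the part symmetric about a point. -/
theorem sym_part (d : ℕ) (hd : 3 ≤ d) (A B : Set (EuclideanSpace ℝ (Fin d))) (hA : Convex ℝ A)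
    (hAc : IsCompact A) (hAi : (interior A).Nonempty) (hB : Convex ℝ B) (hBc : IsCompact B)
    (hBn : B.Nonempty) (c : EuclideanSpace ℝ (Fin d)) :
    ∃ T : Finset (EuclideanSpace ℝ (Fin d)),
      A + B ⊆ ⋃ t ∈ T, (fun x => t + x) '' interior (A + B) ∧
      (T.card : ℝ) * volume.real (A ∩ {x | (2 : ℝ) • c - x ∈ A}) ≤
        11 * d * 2 ^ d * volume.real A := by
  have hfr : finrank ℝ (EuclideanSpace ℝ (Fin d)) = d := by simp
  set L : Set (EuclideanSpace ℝ (Fin d)) := A ∩ {x | (2 : ℝ) • c - x ∈ A} with hLdef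
  have hAr : 0 ≤ volume.real A := measureReal_nonneg
  rcases (measureReal_nonneg (μ := volume) (s := L)).eq_or_lt with h0 | h0
  · obtain ⟨T, hT, -⟩ := main d hd A B A hA hAc hB hBc hBn hA hAc hAi (Set.Subset.refl A)
    refine ⟨T, hT, ?_⟩
    rw [← h0, mul_zero]
    positivity
  have hRclosed : IsClosed {x : EuclideanSpace ℝ (Fin d) | (2 : ℝ) • c - x ∈ A} :=
    hAc.isClosed.preimage (f := fun x => (2 : ℝ) • c - x) (by fun_prop)
  have hLc : IsCompact L := hAc.inter_right hRclosed
  have hL : Convex ℝ L := by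
    refine hA.inter ?_
    intro x hx y hy a b ha hb hab
    have := hA hx hy ha hb hab
    have e : (2 : ℝ) • c - (a • x + b • y) = a • ((2 : ℝ) • c - x) + b • ((2 : ℝ) • c - y) := by
      have e0 : (2 : ℝ) • c = a • ((2 : ℝ) • c) + b • ((2 : ℝ) • c) := by
        rw [← add_smul, hab, one_smul]
      nth_rewrite 1 [e0]
      rw [smul_sub, smul_sub]
      abel
    show (2 : ℝ) • c - (a • x + b • y) ∈ A
    rw [e]
    exact this
  have hLi : (interior L).Nonempty := int_of_pos volume hL hLc h0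
  obtain ⟨T, hT, hcard⟩ := main d hd A B L hA hAc hB hBc hBn hL hLc hLi Set.inter_subset_left
  refine ⟨T, hT, hcard.trans ?_⟩
  have hsub : A - L ⊆ (fun x => (2 : ℝ) • c + x) ⁻¹' ((2 : ℝ) • A) := by
    rintro _ ⟨a, ha, l, hl, rfl⟩
    have h1 : (1 / 2 : ℝ) • a + (1 / 2 : ℝ) • ((2 : ℝ) • c - l) ∈ A :=
      hA ha hl.2 (by norm_num) (by norm_num) (by norm_num)
    refine ⟨_, h1, ?_⟩
    simp only [smul_add, smul_smul, smul_sub]
    module
  have h2A : IsCompact ((2 : ℝ) • A) := hAc.smul 2
  have hle : volume.real (A - L) ≤ 2 ^ d * volume.real A := by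
    calc volume.real (A - L) ≤ volume.real ((fun x => (2 : ℝ) • c + x) ⁻¹' ((2 : ℝ) • A)) := by
          refine measureReal_mono hsub ?_
          rw [measure_preimage_add]
          exact h2A.measure_lt_top.ne
      _ = volume.real ((2 : ℝ) • A) := by
          rw [measureReal_def, measure_preimage_add]
          rfl
      _ = 2 ^ d * volume.real A := by
          rw [vol_smul volume (by norm_num), hfr]
  calc 11 * (d : ℝ) * volume.real (A - L) ≤ 11 * d * (2 ^ d * volume.real A) :=
        mul_le_mul_of_nonneg_left hle (by positivity)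
    _ = 11 * d * 2 ^ d * volume.real A := by ring

end Pool.Agent.K3h52.LF
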